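import Mathlib
import Pool.Agent.R303.TA.Sys

set_option autoImplicit false

/-!
# Independent uniformly distributed digits and compatible permutations of the residues
-/

open Filter Topology Finset MeasureTheory ProbabilityTheory
open scoped Real

namespace Pool.Agent.R303.BA

open Pool.Agent.W66 Pool.Agent.W66L
open Pool.Agent.TH888.R (Pt)

/-- the integer with the digits `x 0, …, x (n - 1)` (least significant first) in base `b` -/
def num (b : ℕ) (x : ℕ → Fin b) (n : ℕ) : ℕ := ∑ i ∈ Finset.range n, (x i : ℕ) * b ^ i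

lemma num_succ (b : ℕ) (x : ℕ → Fin b) (n : ℕ) : num b x (n + 1) = num b x n + x n * b ^ n := by
  unfold num
  rw [Finset.sum_range_succ]

lemma num_lt (b : ℕ) (x : ℕ → Fin b) (n : ℕ) : num b x n < b ^ n := by
  induction n with
  | zero => simp [num]
  | succ n ih =>
    rw [num_succ]
    have h := (x n).isLt
    calc num b x n + x n * b ^ n < b ^ n + x n * b ^ n := by omega
      _ = (x n + 1) * b ^ n := by ring
      _ ≤ b * b ^ n := Nat.mul_le_mul_right _ h
      _ = b ^ (n + 1) := by ring

lemma num_mod (b : ℕ) (x : ℕ → Fin b) (n : ℕ) : num b x (n + 1) % b ^ n = num b x n := by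
  rw [num_succ, Nat.add_mul_mod_self_right, Nat.mod_eq_of_lt (num_lt b x n)]

lemma num_div (b : ℕ) (x : ℕ → Fin b) (n : ℕ) : num b x (n + 1) / b ^ n = x n := by
  have hb : 0 < b := (Nat.zero_le _).trans_lt (x 0).isLt
  rw [num_succ, Nat.add_mul_div_right _ _ (by positivity), Nat.div_eq_of_lt (num_lt b x n), zero_add]

lemma num_eq_iff (b : ℕ) (x : ℕ → Fin b) (n a : ℕ) (ha : a < b ^ n) :
    num b x n = a ↔ ∀ i ∈ Finset.range n, (x i : ℕ) = a / b ^ i % b := by
  induction n generalizing a with
  | zero =>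
    have : a = 0 := by simpa using ha
    subst this
    simp [num]
  | succ n ih =>
    have hb : 0 < b := (Nat.zero_le _).trans_lt (x 0).isLt
    have hbn : 0 < b ^ n := by positivity
    have h1 : a % b ^ n < b ^ n := Nat.mod_lt _ hbn
    have h2 : a / b ^ n < b := by
      rw [Nat.div_lt_iff_lt_mul hbn]
      calc a < b ^ (n + 1) := ha
        _ = b * b ^ n := by ring
    have h3 : num b x (n + 1) = a ↔ num b x n = a % b ^ n ∧ (x n : ℕ) = a / b ^ n := by
      constructor
      · intro h
        rw [← h]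
        exact ⟨(num_mod b x n).symm, (num_div b x n).symm⟩
      · rintro ⟨h, h'⟩
        rw [num_succ, h, h', mul_comm]
        exact Nat.mod_add_div a (b ^ n)
    rw [h3, ih (a % b ^ n) h1]
    constructor
    · rintro ⟨h, h'⟩ i hi
      rcases Nat.lt_succ_iff_lt_or_eq.1 (Finset.mem_range.1 hi) with hlt | heq
      · rw [h i (Finset.mem_range.2 hlt)]
        have e : b ^ n = b ^ i * b ^ (n - i) := by rw [← pow_add]; congr 1; omega
        rw [e, Nat.mod_mul_right_div_self]
        have e2 : b ∣ b ^ (n - i) := dvd_pow_self b (by omega)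
        exact Nat.mod_mod_of_dvd _ e2
      · rw [heq, h', Nat.mod_eq_of_lt h2]
    · intro h
      refine ⟨fun i hi => ?_, ?_⟩
      · have hlt := Finset.mem_range.1 hi
        rw [h i (Finset.mem_range.2 (by omega))]
        have e : b ^ n = b ^ i * b ^ (n - i) := by rw [← pow_add]; congr 1; omega
        rw [e, Nat.mod_mul_right_div_self]
        have e2 : b ∣ b ^ (n - i) := dvd_pow_self b (by omega)
        exact (Nat.mod_mod_of_dvd _ e2).symm
      · rw [h n (Finset.mem_range.2 (by omega)), Nat.mod_eq_of_lt h2]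

variable {Ω : Type*} [MeasurableSpace Ω] {P : Measure Ω} {b : ℕ}

/-- independent uniformly distributed digits give uniformly distributed compatible residues -/
theorem full_digits [IsProbabilityMeasure P] {X : ℕ → Ω → Fin b} (hm : ∀ i, Measurable (X i))
    (hi : iIndepFun X P) (hu : ∀ i a, P.real {ω | X i ω = a} = 1 / b) :
    Full b P (fun n ω => num b (fun i => X i ω) n) where
  meas := by
    intro n
    unfold num
    refine Finset.measurable_sum _ fun i _ => ?_
    exact (measurable_of_finite (fun a : Fin b => (a : ℕ) * b ^ i)).comp (hm i)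
  compat := fun n ω => num_mod b _ n
  unif := by
    intro n a ha
    rw [probReal_univ]
    rcases Nat.eq_zero_or_pos b with hb0 | hb
    · subst hb0
      exact absurd (Classical.choice (by
        obtain ⟨ω⟩ : Nonempty Ω := P.nonempty_of_neZero
        exact ⟨X 0 ω⟩ : Nonempty (Fin 0))).isLt (by omega)
    have hset : {ω | num b (fun i => X i ω) n = a} =
        ⋂ i ∈ Finset.range n, X i ⁻¹' {⟨a / b ^ i % b, Nat.mod_lt _ hb⟩} := by
      ext ω
      simp only [Set.mem_setOf_eq, Set.mem_iInter, Set.mem_preimage, Set.mem_singleton_iff,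
        Fin.ext_iff]
      exact num_eq_iff b _ n a ha
    rw [hset]
    have h1 := hi.measure_inter_preimage_eq_mul (Finset.range n)
      (sets := fun i => {⟨a / b ^ i % b, Nat.mod_lt _ hb⟩}) (fun i _ => measurableSet_singleton _)
    rw [measureReal_def, h1, ENNReal.toReal_prod]
    have h2 : ∀ i ∈ Finset.range n,
        (P (X i ⁻¹' {⟨a / b ^ i % b, Nat.mod_lt _ hb⟩})).toReal = 1 / (b : ℝ) := fun i _ => hu i _
    rw [Finset.prod_congr rfl h2, Finset.prod_const, Finset.card_range, one_div, inv_pow, one_div]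

/-- compatible permutations of the residues modulo the powers of `b` -/
structure Perm (b : ℕ) (φ : ℕ → ℕ → ℕ) : Prop where
  lt : ∀ n m, m < b ^ n → φ n m < b ^ n
  inj : ∀ n m m', m < b ^ n → m' < b ^ n → φ n m = φ n m' → m = m'
  compat : ∀ n m, m < b ^ (n + 1) → φ (n + 1) m % b ^ n = φ n (m % b ^ n)

/-- a compatible permutation preserves uniformly distributed compatible residues -/
theorem full_perm [IsFiniteMeasure P] (hb : 2 ≤ b) {s : ℕ → Ω → ℕ} (hs : Full b P s)
    {φ : ℕ → ℕ → ℕ} (hφ : Perm b φ) : Full b P (fun n ω => φ n (s n ω)) where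
  meas := fun n => (measurable_from_nat (f := φ n)).comp (hs.meas n)
  compat := fun n ω => by
    rw [hφ.compat n _ (hs.lt hb (n + 1) ω), hs.compat]
  unif := by
    intro n a ha
    have hsurj : ∃ m, m < b ^ n ∧ φ n m = a := by
      have h1 : (Finset.range (b ^ n)).image (φ n) ⊆ Finset.range (b ^ n) := by
        intro y hy
        obtain ⟨m, hm, rfl⟩ := Finset.mem_image.1 hy
        exact Finset.mem_range.2 (hφ.lt n m (Finset.mem_range.1 hm))
      have h2 : ((Finset.range (b ^ n)).image (φ n)).card = (Finset.range (b ^ n)).card := by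
        refine Finset.card_image_of_injOn fun m hm m' hm' h => ?_
        exact hφ.inj n m m' (Finset.mem_range.1 hm) (Finset.mem_range.1 hm') h
      have h3 := Finset.eq_of_subset_of_card_le h1 h2.ge
      have h4 : a ∈ (Finset.range (b ^ n)).image (φ n) := by
        rw [h3]
        exact Finset.mem_range.2 ha
      obtain ⟨m, hm, h⟩ := Finset.mem_image.1 h4
      exact ⟨m, Finset.mem_range.1 hm, h⟩
    obtain ⟨m, hm, hma⟩ := hsurj
    have hset : {ω | φ n (s n ω) = a} = {ω | s n ω = m} := by
      ext ω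
      simp only [Set.mem_setOf_eq]
      constructor
      · intro h
        exact hφ.inj n _ _ (hs.lt hb n ω) hm (h.trans hma.symm)
      · intro h
        rw [h, hma]
    rw [hset]
    exact hs.unif n m hm

/-- the law for a compatible permutation of uniformly distributed compatible residues -/
theorem pt_perm [IsFiniteMeasure P] (hb : 2 ≤ b) {s : ℕ → Ω → ℕ} (hs : Full b P s)
    {φ : ℕ → ℕ → ℕ} (hφ : Perm b φ) (S : Set ℕ) : ∀ᵐ ω ∂P, (φ 1 (s 1 ω)).Coprime b →
    Pt (fun p => φ p (s p ω)) (Real.exp Real.eulerMascheroniConstant / Real.log b) S :=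
  Pool.Agent.R303.TA.pt_full hb (full_perm hb hs hφ) S

/-- integer functions which respect congruences in both directions permute the residues -/
theorem perm_of_int (hb : 2 ≤ b) {f : ℤ → ℤ}
    (h1 : ∀ (n : ℕ) (m m' : ℤ), (b : ℤ) ^ n ∣ m - m' → (b : ℤ) ^ n ∣ f m - f m')
    (h2 : ∀ (n : ℕ) (m m' : ℤ), (b : ℤ) ^ n ∣ f m - f m' → (b : ℤ) ^ n ∣ m - m') :
    Perm b (fun n m => (f m % (b : ℤ) ^ n).toNat) := by
  have hbn : ∀ n : ℕ, (0 : ℤ) < (b : ℤ) ^ n := fun n => by positivity
  have key : ∀ (n m : ℕ), (((f m % (b : ℤ) ^ n).toNat : ℕ) : ℤ) = f m % (b : ℤ) ^ n := fun n m =>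
    Int.toNat_of_nonneg (Int.emod_nonneg _ (hbn n).ne')
  refine ⟨fun n m _ => ?_, fun n m m' hm hm' h => ?_, fun n m hm => ?_⟩
  · have h3 := Int.emod_lt_of_pos (f m) (hbn n)
    rw [← key n m] at h3
    exact_mod_cast h3
  · have h3 : f m % (b : ℤ) ^ n = f m' % (b : ℤ) ^ n := by
      rw [← key n m, ← key n m']
      exact_mod_cast h
    have h4 := h2 n m m' (Int.ModEq.dvd (Int.ModEq.symm h3))
    have h5 : (m' : ℤ) ≡ m [ZMOD ((b ^ n : ℕ) : ℤ)] := by
      push_cast
      exact Int.modEq_iff_dvd.2 h4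
    have h6 := Int.natCast_modEq_iff.1 h5
    have h7 := Nat.ModEq.eq_of_lt_of_lt h6 hm' hm
    exact h7.symm
  · have e : ((((f m % (b : ℤ) ^ (n + 1)).toNat % b ^ n : ℕ)) : ℤ) =
        (((f ((m % b ^ n : ℕ) : ℤ) % (b : ℤ) ^ n).toNat : ℕ) : ℤ) := by
      rw [key n (m % b ^ n)]
      push_cast
      rw [key (n + 1) m, Int.emod_emod_of_dvd _ (pow_dvd_pow _ (Nat.le_succ n))]
      have h3 : (b : ℤ) ^ n ∣ (m : ℤ) - ((m : ℤ) % (b : ℤ) ^ n) := Int.dvd_self_sub_emod
      have h4 := h1 n _ _ h3
      exact (Int.modEq_iff_dvd.2 h4).symm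
    exact_mod_cast e

end Pool.Agent.R303.BA
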