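import Mathlib
import Pool.Agent.H447R2.ML.Spec
import Pool.Agent.W66.ST

set_option autoImplicit false

/-!
# The prime factors of `(a ^ p - c ^ p) / (a - c)` are larger than `p`
-/

namespace Pool.Agent.R303.BA

open Pool.Agent.H305R2 (roughPart)

/-- the quotient `(a ^ p - c ^ p) / (a - c)` is its own rough part -/
lemma rough_geom {a c : ℤ} (hac : IsCoprime a c) (h1 : -a < c) (h2 : c < a) {p : ℕ} (hp : p.Prime)
    (hpd : ¬ (p : ℤ) ∣ a - c) {N : ℕ} (hN : (N : ℤ) * (a - c) = a ^ p - c ^ p) :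
    roughPart p N = N := by
  have hgeom : (∑ i ∈ Finset.range p, a ^ i * c ^ (p - 1 - i)) * (a - c) = a ^ p - c ^ p :=
    (Commute.all a c).geom_sum₂_mul p
  have hac0 : a - c ≠ 0 := by omega
  have hNs : (N : ℤ) = ∑ i ∈ Finset.range p, a ^ i * c ^ (p - 1 - i) :=
    mul_right_cancel₀ hac0 (hN.trans hgeom.symm)
  have hpos := Pool.Agent.H447R2.ML.geom_pos h1 h2 hp.ne_zero
  refine Pool.Agent.W66S.roughPart_self ?_ fun q hq hqN => ?_
  · intro h
    rw [← hNs, h] at hpos
    simp at hpos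
  · refine Pool.Agent.H447R2.ML.lt_of_dvd_quot hac hp hpd hq ?_
    rw [← hNs]
    exact_mod_cast hqN

end Pool.Agent.R303.BA
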