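import Mathlib
import Pool.Agent.R303.BA.Dig
import Pool.Agent.R303.BA.Spec

set_option autoImplicit false

/-!
# Rational affine images of random profinite integers
-/

open Filter Topology Finset MeasureTheory ProbabilityTheory
open scoped Real

namespace Pool.Agent.R303.BA

open Pool.Agent.W66 Pool.Agent.W66L
open Pool.Agent.TH888.R (Pt)

/-- the residue of `(u a + m) / v` modulo `b ^ n` -/
noncomputable def rat (b : ℕ) (u v m : ℤ) (n a : ℕ) : ℕ :=
  (((u * (a : ℤ) + m : ℤ) : ZMod (b ^ n)) * ((v : ℤ) : ZMod (b ^ n))⁻¹).val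

lemma isUnit_intCast {v : ℤ} {N : ℕ} (h : IsCoprime v (N : ℤ)) : IsUnit ((v : ℤ) : ZMod N) :=
  (ZMod.coe_int_isUnit_iff_isCoprime v N).2 h.symm

lemma mul_inv_int {v : ℤ} {N : ℕ} (h : IsCoprime v (N : ℤ)) :
    ((v : ℤ) : ZMod N) * ((v : ℤ) : ZMod N)⁻¹ = 1 :=
  ZMod.mul_inv_of_unit _ (isUnit_intCast h)

lemma coprime_pow {b : ℕ} {v : ℤ} (h : IsCoprime v (b : ℤ)) (n : ℕ) :
    IsCoprime v ((b ^ n : ℕ) : ℤ) := by
  push_cast
  exact h.pow_right

theorem perm_rat {b : ℕ} (hb : 2 ≤ b) {u v m : ℤ} (hu : IsCoprime u (b : ℤ))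
    (hv : IsCoprime v (b : ℤ)) : Perm b (rat b u v m) := by
  have hne : ∀ n, NeZero (b ^ n) := fun n => ⟨by positivity⟩
  refine ⟨fun n a _ => ?_, fun n a a' ha ha' h => ?_, fun n a ha => ?_⟩
  · haveI := hne n
    exact ZMod.val_lt _
  · haveI := hne n
    unfold rat at h
    have h1 := ZMod.val_injective _ h
    have hvu := isUnit_intCast (coprime_pow hv n)
    have hui := isUnit_intCast (coprime_pow hu n)
    have h2 : ((u * (a : ℤ) + m : ℤ) : ZMod (b ^ n)) = ((u * (a' : ℤ) + m : ℤ) : ZMod (b ^ n)) := by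
      have h3 := congrArg (· * ((v : ℤ) : ZMod (b ^ n))) h1
      simp only [mul_assoc] at h3
      rw [mul_comm (((v : ℤ) : ZMod (b ^ n))⁻¹), mul_inv_int (coprime_pow hv n), mul_one, mul_one] at h3
      exact h3
    push_cast at h2
    have h4 := hui.mul_left_cancel (add_right_cancel h2)
    have h5 := (ZMod.natCast_eq_natCast_iff a a' (b ^ n)).1 h4
    exact Nat.ModEq.eq_of_lt_of_lt h5 ha ha'
  · haveI := hne n
    haveI := hne (n + 1)
    have hd : b ^ n ∣ b ^ (n + 1) := pow_dvd_pow _ (Nat.le_succ n)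
    set f := ZMod.castHom hd (ZMod (b ^ n)) with hf
    have hinv : f (((v : ℤ) : ZMod (b ^ (n + 1)))⁻¹) = ((v : ℤ) : ZMod (b ^ n))⁻¹ := by
      have h1 := congrArg f (mul_inv_int (coprime_pow hv (n + 1)))
      rw [map_mul, map_one, map_intCast] at h1
      have hvu := isUnit_intCast (coprime_pow hv n)
      refine hvu.mul_left_cancel ?_
      rw [h1, mul_inv_int (coprime_pow hv n)]
    have hval : ∀ y : ZMod (b ^ (n + 1)), y.val % b ^ n = (f y).val := by
      intro y
      have h1 : f y = ((y.val : ℕ) : ZMod (b ^ n)) := by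
        conv_lhs => rw [← ZMod.natCast_zmod_val y]
        rw [map_natCast]
      rw [h1, ZMod.val_natCast]
    unfold rat
    rw [hval, map_mul, hinv, map_intCast]
    congr 2
    rw [ZMod.intCast_eq_intCast_iff]
    have h2 : (a : ℤ) ≡ ((a % b ^ n : ℕ) : ℤ) [ZMOD ((b ^ n : ℕ) : ℤ)] :=
      Int.natCast_modEq_iff.2 (Nat.mod_modEq a (b ^ n)).symm
    exact (h2.mul_left u).add_right m

/-- random profinite integers: uniformly distributed, compatible residues modulo all integers -/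
structure Profinite {Ω : Type*} [MeasurableSpace Ω] (P : Measure Ω) (z : ℕ → Ω → ℕ) : Prop where
  meas : ∀ N, Measurable (z N)
  compat : ∀ N N' : ℕ, 0 < N' → N ∣ N' → ∀ ω, z N' ω % N = z N ω
  unif : ∀ N a : ℕ, a < N → P.real {ω | z N ω = a} = 1 / N

theorem Profinite.full {Ω : Type*} [MeasurableSpace Ω] {P : Measure Ω} [IsProbabilityMeasure P]
    {z : ℕ → Ω → ℕ} (h : Profinite P z) {b : ℕ} (hb : 2 ≤ b) :
    Full b P (fun n ω => z (b ^ n) ω) where
  meas := fun n => h.meas _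
  compat := fun n ω => h.compat _ _ (by positivity) (pow_dvd_pow _ (Nat.le_succ n)) ω
  unif := fun n a ha => by
    rw [probReal_univ, h.unif _ a ha]
    push_cast
    rfl

end Pool.Agent.R303.BA
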